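import Pool.Agent.Helper74_RL.Stmts

/-!
# G1B: bounds for the metric near the exceptional spheres (helper75, MP_62da59_gt)
-/

noncomputable section

open scoped ContDiff Topology ENNReal RealInnerProductSpace BoundedContinuousFunction
set_option maxSynthPendingDepth 3
open Set Metric Filter

namespace Pool.Agent.RLim.H75

open Pool.Agent.RLim Pool.Agent.RF

variable (D : MetricData)

theorem C0_pos : 0 < D.C0 := by
  have h1 := D.low 0 0 (fun k hk => absurd hk (Nat.not_lt_zero k)) (eb (0 : Fin 4))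
  have h2 := D.up 0 0 (fun k hk => absurd hk (Nat.not_lt_zero k)) (eb (0 : Fin 4))
  have h3 : ‖(eb (0 : Fin 4) : E4)‖ = 1 := by simp [eb]
  rw [h3] at h1 h2
  have := D.c0_pos
  linarith

theorem cm_sub (k : ℕ) (i : Bool) (q : E4) : cm D k i q - D.P k = D.w k • Phi0 i q := by
  simp [cm]

theorem norm_Phi0_lt {i : Bool} {q : E4} (hq : q ∈ U1) : ‖Phi0 i q‖ < 8 := by
  have h1 : ‖Phi0 i q‖ ^ 2 < 64 := by
    rw [norm_Phi0]
    exact hq
  nlinarith [norm_nonneg (Phi0 i q)]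

theorem norm_cm_sub_lt {k : ℕ} {i : Bool} {q : E4} (hq : q ∈ U1) :
    ‖cm D k i q - D.P k‖ < 8 * D.w k := by
  rw [cm_sub, norm_smul, Real.norm_of_nonneg (D.w_pos k).le]
  have := norm_Phi0_lt (i := i) hq
  nlinarith [D.w_pos k]

/-- the other centres are far away -/
theorem far {k l : ℕ} (hkl : l ≠ k) {i : Bool} {q : E4} (hq : q ∈ U1) :
    16 * D.w l < ‖cm D k i q - D.P l‖ := by
  have h1 := norm_cm_sub_lt D (k := k) (i := i) hq
  have h2 := D.disj k l (Ne.symm hkl)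
  have h3 := D.w_le k
  have h4 := D.w_le l
  have h5 := D.w_pos k
  have h6 := D.w_pos l
  have h7 : dist (D.P k) (D.P l) ≤ ‖cm D k i q - D.P k‖ + ‖cm D k i q - D.P l‖ := by
    rw [dist_eq_norm]
    have : D.P k - D.P l = (cm D k i q - D.P l) - (cm D k i q - D.P k) := by abel
    rw [this]
    have := norm_sub_le (cm D k i q - D.P l) (cm D k i q - D.P k)
    linarith
  linarith

theorem ne_far {k l : ℕ} (hkl : l ≠ k) {i : Bool} {q : E4} (hq : q ∈ U1) :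
    cm D k i q - D.P l ≠ 0 := by
  intro h0
  have h1 := far D hkl (i := i) hq
  rw [h0, norm_zero] at h1
  have := D.w_pos l
  linarith

theorem ne_near {k : ℕ} {i : Bool} {q : E4} (ha : q 0 ≠ 0 ∨ q 1 ≠ 0) :
    cm D k i q - D.P k ≠ 0 := by
  rw [cm_sub]
  refine smul_ne_zero (D.w_pos k).ne' ?_
  intro h0
  rw [Phi0_eq_zero] at h0
  rcases ha with h | h
  · exact h h0.1
  · exact h h0.2

theorem ne_all {k : ℕ} {i : Bool} {q : E4} (hq : q ∈ U1) (ha : q 0 ≠ 0 ∨ q 1 ≠ 0) (l : ℕ) :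
    cm D k i q ≠ D.P l := by
  intro h0
  by_cases hl : l = k
  · subst hl
    exact ne_near D (i := i) ha (by rw [h0, sub_self])
  · exact ne_far D hl (i := i) hq (by rw [h0, sub_self])

theorem hopf_diff (hHpl : HplStmt) {X : E4} (hX : X ≠ 0) : DifferentiableAt ℝ hopf X := by
  have hO : IsOpen {X : E4 | X ≠ 0} := isOpen_ne
  exact (hHpl.1.contDiffAt (hO.mem_nhds hX)).differentiableAt (by simp)

theorem isOpen_ne01 : IsOpen {q : E4 | q 0 ≠ 0 ∨ q 1 ≠ 0} := by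
  have h0 : IsOpen {q : E4 | q 0 ≠ 0} := isOpen_ne_fun (by fun_prop) continuous_const
  have h1 : IsOpen {q : E4 | q 1 ≠ 0} := isOpen_ne_fun (by fun_prop) continuous_const
  exact h0.union h1

theorem fderiv_sg (hPhi : PhiStmt) (hHpl : HplStmt) {k : ℕ} {i : Bool} {q : E4}
    (ha : q 0 ≠ 0 ∨ q 1 ≠ 0) (V : E4) :
    fderiv ℝ hopf (cm D k i q - D.P k) (fderiv ℝ (cm D k i) q V) = fderiv ℝ (sg i) q V := by
  have hcm : DifferentiableAt ℝ (fun q => cm D k i q - D.P k) q :=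
    ((hPhi.2.2.2 D k i).1.differentiable (by simp) q).sub_const _
  have h1 : fderiv ℝ (fun q => hopf (cm D k i q - D.P k)) q =
      (fderiv ℝ hopf (cm D k i q - D.P k)).comp (fderiv ℝ (fun q => cm D k i q - D.P k) q) :=
    fderiv_comp q (hopf_diff hHpl (ne_near D ha)) hcm
  have h2 : (fun q => hopf (cm D k i q - D.P k)) =ᶠ[𝓝 q] sg i := by
    filter_upwards [isOpen_ne01.mem_nhds ha] with q' hq'
    have hne : Phi0 i q' ≠ 0 := by
      intro h0
      rw [Phi0_eq_zero] at h0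
      rcases hq' with h | h
      · exact h h0.1
      · exact h h0.2
    rw [cm_sub, hopf_smul (D.w_pos k).ne' hne, hopf_Phi0 hne]
  rw [← h2.fderiv_eq, h1]
  simp [fderiv_sub_const]

/-- passing to the limit `a → 0` -/
theorem limit_le {F F' : E4 → ℝ} (hU : IsOpen U1) (hF : ContinuousOn F U1)
    (hF' : ContinuousOn F' U1) {q : E4} (hq : q ∈ U1)
    (h : ∀ t : ℝ, 0 < t → t ≤ 1 → q + t • (eb 0 : E4) ∈ U1 →
      F (q + t • (eb 0 : E4)) ≤ F' (q + t • (eb 0 : E4))) : F q ≤ F' q := by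
  have hg : Continuous (fun t : ℝ => q + t • (eb 0 : E4)) := by fun_prop
  have hg0 : Tendsto (fun t : ℝ => q + t • (eb 0 : E4)) (𝓝[>] 0) (𝓝 q) := by
    have h2 : Tendsto (fun t : ℝ => q + t • (eb 0 : E4)) (𝓝 0) (𝓝 q) := by
      have := hg.tendsto 0
      simpa using this
    exact h2.mono_left nhdsWithin_le_nhds
  have hFt := (hF.continuousAt (hU.mem_nhds hq)).tendsto.comp hg0
  have hFt' := (hF'.continuousAt (hU.mem_nhds hq)).tendsto.comp hg0
  refine le_of_tendsto_of_tendsto hFt hFt' ?_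
  have e1 : ∀ᶠ t in 𝓝[>] (0:ℝ), q + t • (eb 0 : E4) ∈ U1 := hg0 (hU.mem_nhds hq)
  have e2 : ∀ᶠ t in 𝓝[>] (0:ℝ), t ∈ Ioc (0:ℝ) 1 := Ioc_mem_nhdsGT one_pos
  filter_upwards [e1, e2] with t ht1 ht2
  exact h t ht2.1 ht2.2 ht1

theorem path_0 (q : E4) (t : ℝ) : (q + t • (eb 0 : E4)) 0 = q 0 + t := by simp [eb]
theorem path_1 (q : E4) (t : ℝ) : (q + t • (eb 0 : E4)) 1 = q 1 := by simp [eb]
theorem path_2 (q : E4) (t : ℝ) : (q + t • (eb 0 : E4)) 2 = q 2 := by simp [eb]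
theorem path_3 (q : E4) (t : ℝ) : (q + t • (eb 0 : E4)) 3 = q 3 := by simp [eb]

/-- the three bounds for `a ≠ 0` -/
theorem three (hPhi : PhiStmt) (hHpl : HplStmt) (hSgl : SglStmt) (j : ℕ) (k : Fin j) (i : Bool)
    (q : E4) (hq : q ∈ U1) (ha : q 0 ≠ 0 ∨ q 1 ≠ 0) (V : E4) :
    D.c0 * ‖fderiv ℝ (cm D k i) q V‖ ^ 2 ≤ G1 D j k i q V V ∧
    D.c1 * (D.w k * ‖fderiv ℝ (sg i) q V‖) ^ 2 ≤ G1 D j k i q V V ∧
    (q 0 ^ 2 + q 1 ^ 2 ≤ 1 → q 2 ^ 2 + q 3 ^ 2 ≤ 4 →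
      G1 D j k i q V V ≤ 25 * D.C0 * (D.w k) ^ 2 * ‖V‖ ^ 2) := by
  have hG : G1 D j k i q V V =
      D.g j (cm D k i q) (fderiv ℝ (cm D k i) q V) (fderiv ℝ (cm D k i) q V) := by
    unfold G1
    rw [if_pos ha]
    rfl
  rw [hG]
  have hX : ∀ l < j, cm D k i q ≠ D.P l := fun l _ => ne_all D hq ha l
  have hs := fderiv_sg D hPhi hHpl (k := k) (i := i) ha V
  refine ⟨D.low j _ hX _, ?_, ?_⟩
  · rw [← hs]
    exact D.lowv j k k.2 _ hX _
  · intro hq1 hq2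
    have h1 : ‖fderiv ℝ (cm D k i) q V‖ ^ 2 ≤ (D.w k) ^ 2 * (9 * ‖V‖ ^ 2) := by
      rw [(hPhi.2.2.2 D k i).2, norm_smul, mul_pow, Real.norm_of_nonneg (D.w_pos k).le]
      exact mul_le_mul_of_nonneg_left (hPhi.2.1 i q V hq1 hq2) (by positivity)
    have h2 : (D.w k * ‖fderiv ℝ (sg i) q V‖) ^ 2 ≤ (D.w k) ^ 2 * (16 * ‖V‖ ^ 2) := by
      have h3 := hSgl.2.1 i q V
      have h4 : ‖fderiv ℝ (sg i) q V‖ ^ 2 ≤ (4 * ‖V‖) ^ 2 :=
        pow_le_pow_left₀ (norm_nonneg _) h3 2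
      rw [mul_pow]
      refine mul_le_mul_of_nonneg_left ?_ (by positivity)
      linarith [h4, mul_pow (4:ℝ) ‖V‖ 2]
    have hC := C0_pos D
    by_cases hw : ‖cm D k i q - D.P k‖ ≤ D.w k
    · have h5 := D.upv j k k.2 (cm D k i q) (ne_all D hq ha k) hw (fderiv ℝ (cm D k i) q V)
      rw [hs] at h5
      refine h5.trans ?_
      have h6 : ‖fderiv ℝ (cm D k i) q V‖ ^ 2 + (D.w k * ‖fderiv ℝ (sg i) q V‖) ^ 2 ≤
          25 * (D.w k ^ 2 * ‖V‖ ^ 2) := by linarith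
      calc D.C0 * (‖fderiv ℝ (cm D k i) q V‖ ^ 2 + (D.w k * ‖fderiv ℝ (sg i) q V‖) ^ 2)
          ≤ D.C0 * (25 * (D.w k ^ 2 * ‖V‖ ^ 2)) := mul_le_mul_of_nonneg_left h6 hC.le
        _ = 25 * D.C0 * D.w k ^ 2 * ‖V‖ ^ 2 := by ring
    · push Not at hw
      have hup : ∀ l < j, D.w l ≤ ‖cm D k i q - D.P l‖ := by
        intro l _
        by_cases hl : l = k
        · rw [hl]
          exact hw.le
        · have := far D hl (i := i) hq
          have := D.w_pos l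
          linarith
      have h5 := D.up j (cm D k i q) hup (fderiv ℝ (cm D k i) q V)
      refine h5.trans ?_
      calc D.C0 * ‖fderiv ℝ (cm D k i) q V‖ ^ 2
          ≤ D.C0 * (D.w k ^ 2 * (9 * ‖V‖ ^ 2)) := mul_le_mul_of_nonneg_left h1 hC.le
        _ ≤ 25 * D.C0 * D.w k ^ 2 * ‖V‖ ^ 2 := by
          have : 0 ≤ D.C0 * (D.w k ^ 2 * ‖V‖ ^ 2) := by positivity
          linarith [this, mul_comm D.C0 1]

/-- Module G1B. -/
theorem g1b (_hDif : DifStmt) (hPhi : PhiStmt) (hHpl : HplStmt) (hSgl : SglStmt)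
    (hG1m : G1mStmt) : G1bStmt := by
  intro D j k i q hq V
  have hM := (hG1m D j k i).1
  have hcont : ContinuousOn (fun q => G1 D j k i q V V) U1 :=
    (hM.smooth.continuousOn.clm_apply continuousOn_const).clm_apply continuousOn_const
  have hcm : Continuous (fun q => fderiv ℝ (cm D k i) q V) :=
    ((hPhi.2.2.2 D k i).1.continuous_fderiv (by simp)).clm_apply continuous_const
  have hsg : Continuous (fun q => fderiv ℝ (sg i) q V) :=
    ((hSgl.1 i).continuous_fderiv (by simp)).clm_apply continuous_const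
  have h3 : D.c0 * ‖fderiv ℝ (cm D k i) q V‖ ^ 2 ≤ G1 D j k i q V V ∧
    D.c1 * (D.w k * ‖fderiv ℝ (sg i) q V‖) ^ 2 ≤ G1 D j k i q V V ∧
    (q 0 ^ 2 + q 1 ^ 2 ≤ 1 → q 2 ^ 2 + q 3 ^ 2 ≤ 4 →
      G1 D j k i q V V ≤ 25 * D.C0 * (D.w k) ^ 2 * ‖V‖ ^ 2) := by
    by_cases ha : q 0 ≠ 0 ∨ q 1 ≠ 0
    · exact three D hPhi hHpl hSgl j k i q hq ha V
    push Not at ha
    have hne : ∀ t : ℝ, 0 < t → (q + t • (eb 0 : E4)) 0 ≠ 0 ∨ (q + t • (eb 0 : E4)) 1 ≠ 0 := by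
      intro t ht
      left
      rw [path_0, ha.1, zero_add]
      exact ht.ne'
    refine ⟨?_, ?_, ?_⟩
    · exact limit_le (F := fun q => D.c0 * ‖fderiv ℝ (cm D k i) q V‖ ^ 2)
        (F' := fun q => G1 D j k i q V V) hM.isOpen (by fun_prop) hcont hq
        fun t ht _ hU => (three D hPhi hHpl hSgl j k i _ hU (hne t ht) V).1
    · exact limit_le (F := fun q => D.c1 * (D.w k * ‖fderiv ℝ (sg i) q V‖) ^ 2)
        (F' := fun q => G1 D j k i q V V) hM.isOpen (by fun_prop) hcont hq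
        fun t ht _ hU => (three D hPhi hHpl hSgl j k i _ hU (hne t ht) V).2.1
    · intro _ hq2
      refine limit_le (F := fun q => G1 D j k i q V V)
        (F' := fun _ => 25 * D.C0 * (D.w k) ^ 2 * ‖V‖ ^ 2) hM.isOpen hcont continuousOn_const hq
        fun t ht ht1 hU => (three D hPhi hHpl hSgl j k i _ hU (hne t ht) V).2.2 ?_ ?_
      · rw [path_0, path_1, ha.1, ha.2]
        nlinarith
      · rw [path_2, path_3]
        exact hq2
  refine ⟨h3.1, h3.2.1, h3.2.2, ?_⟩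
  intro l hl
  have hl' : (l : ℕ) ≠ k := fun h => hl (Fin.ext h)
  have hne : cm D k i q - D.P l ≠ 0 := ne_far D hl' hq
  have hcmd : DifferentiableAt ℝ (fun q => cm D k i q - D.P l) q :=
    ((hPhi.2.2.2 D k i).1.differentiable (by simp) q).sub_const _
  have hev : (fun q => D.w l • hd (cm D k i q - D.P l)) =ᶠ[𝓝 q]
      fun q => D.w l • hopf (cm D k i q - D.P l) := by
    have h4 : ∀ᶠ q' in 𝓝 q, cm D k i q' - D.P l ≠ 0 :=
      hcmd.continuousAt.eventually_ne hne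
    filter_upwards [h4] with q' hq'
    rw [hd_of_ne hq']
  have hdiff : DifferentiableAt ℝ (fun q => hopf (cm D k i q - D.P l)) q :=
    DifferentiableAt.comp (g := hopf) q (hopf_diff hHpl hne) hcmd
  have hder : fderiv ℝ (fun q => D.w l • hd (cm D k i q - D.P l)) q V =
      D.w l • fderiv ℝ hopf (cm D k i q - D.P l) (fderiv ℝ (cm D k i) q V) := by
    have h5 : fderiv ℝ (fun q => hopf (cm D k i q - D.P l)) q =
        (fderiv ℝ hopf (cm D k i q - D.P l)).comp (fderiv ℝ (fun q => cm D k i q - D.P l) q) :=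
      fderiv_comp q (hopf_diff hHpl hne) hcmd
    rw [hev.fderiv_eq, fderiv_fun_const_smul hdiff, h5]
    simp [fderiv_sub_const]
  refine ⟨(hdiff.const_smul (D.w l)).congr_of_eventuallyEq hev, ?_⟩
  have h6 := hHpl.2.2 (cm D k i q - D.P l) hne (fderiv ℝ (cm D k i) q V)
  have h7 := far D hl' (i := i) hq
  have hwl := D.w_pos l
  have hpos : 0 < ‖cm D k i q - D.P l‖ := norm_pos_iff.2 hne
  have h8 : ‖fderiv ℝ (fun q => D.w l • hd (cm D k i q - D.P l)) q V‖ ≤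
      ‖fderiv ℝ (cm D k i) q V‖ := by
    rw [hder, norm_smul, Real.norm_of_nonneg hwl.le]
    calc D.w l * ‖fderiv ℝ hopf (cm D k i q - D.P l) (fderiv ℝ (cm D k i) q V)‖
        ≤ D.w l * (4 * ‖fderiv ℝ (cm D k i) q V‖ / ‖cm D k i q - D.P l‖) :=
          mul_le_mul_of_nonneg_left h6 hwl.le
      _ = (4 * D.w l / ‖cm D k i q - D.P l‖) * ‖fderiv ℝ (cm D k i) q V‖ := by ring
      _ ≤ 1 * ‖fderiv ℝ (cm D k i) q V‖ := by
          refine mul_le_mul_of_nonneg_right ?_ (norm_nonneg _)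
          rw [div_le_one hpos]
          linarith
      _ = ‖fderiv ℝ (cm D k i) q V‖ := one_mul _
  have h9 : ‖fderiv ℝ (fun q => D.w l • hd (cm D k i q - D.P l)) q V‖ ^ 2 ≤
      ‖fderiv ℝ (cm D k i) q V‖ ^ 2 := pow_le_pow_left₀ (norm_nonneg _) h8 2
  have h10 := mul_le_mul_of_nonneg_left h9 D.c0_pos.le
  have h11 : 0 ≤ D.c0 * ‖fderiv ℝ (cm D k i) q V‖ ^ 2 :=
    mul_nonneg D.c0_pos.le (sq_nonneg _)
  linarith [h3.1]

end Pool.Agent.RLim.H75
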