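import Pool.Agent.Helper74_RL.Stmts

/-!
# MKC: from fields of bilinear forms to components (helper75, MP_62da59_gt)
-/

noncomputable section

open scoped ContDiff Topology ENNReal RealInnerProductSpace BoundedContinuousFunction
set_option maxSynthPendingDepth 3
open Set Metric

namespace Pool.Agent.RLim.H75

open Pool.Agent.RLim Pool.Agent.RF
open Pool.Agent.SecondKind (mat eqE ricci ricci_mat)

variable {M : Type}

theorem ric_sum {G : E4 → Bil E4} {U : Set E4} (hG : IsMetricOn G U) {q : E4} (hq : q ∈ U)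
    (V : E4) : ric G q V V = ∑ i, ∑ j, ric G q (eb i) (eb j) * V i * V j := by
  have h1 : ∀ k : Fin 4, riem G q (eb k) V V =
      ∑ i, V i • ∑ j, V j • riem G q (eb k) (eb i) (eb j) := by
    intro k
    conv_lhs => rw [H9.sum_eb V]
    rw [H58.riem_sum2 hG hq]
    refine Finset.sum_congr rfl fun i _ => ?_
    rw [H58.riem_sum3 hG hq]
  unfold ric
  have h2 : ∀ k : Fin 4, (riem G q (eb k) V V) k =
      ∑ i, ∑ j, (riem G q (eb k) (eb i) (eb j)) k * V i * V j := by
    intro k
    rw [h1]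
    simp only [WithLp.ofLp_sum, WithLp.ofLp_smul, Finset.sum_apply, Pi.smul_apply, smul_eq_mul]
    refine Finset.sum_congr rfl fun i _ => ?_
    rw [Finset.mul_sum]
    refine Finset.sum_congr rfl fun j _ => ?_
    ring
  simp only [h2]
  rw [Finset.sum_comm]
  refine Finset.sum_congr rfl fun i _ => ?_
  rw [Finset.sum_comm]
  refine Finset.sum_congr rfl fun j _ => ?_
  rw [Finset.sum_mul, Finset.sum_mul]

theorem fderiv_conj (f : E4 → E4) (y : Fin 4 → ℝ) (i k : Fin 4) :
    fderiv ℝ (fun z => eqE 4 (f ((eqE 4).symm z))) y (Pi.single i 1) k =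
      (fderiv ℝ f ((eqE 4).symm y) (eb i)) k := by
  have h1 : fderiv ℝ ((eqE 4) ∘ (f ∘ (eqE 4).symm)) y =
      ((eqE 4 : E4 ≃L[ℝ] (Fin 4 → ℝ)) : E4 →L[ℝ] (Fin 4 → ℝ)).comp
        (fderiv ℝ (f ∘ (eqE 4).symm) y) := (eqE 4).comp_fderiv
  have h2 : fderiv ℝ (f ∘ (eqE 4).symm) y =
      (fderiv ℝ f ((eqE 4).symm y)).comp ((eqE 4).symm : (Fin 4 → ℝ) →L[ℝ] E4) :=
    (eqE 4).symm.comp_right_fderiv
  have h3 : (fun z => eqE 4 (f ((eqE 4).symm z))) = (eqE 4) ∘ (f ∘ (eqE 4).symm) := rfl
  rw [h3, h1, h2]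
  rfl

/-- Module MKC. -/
theorem mkc : MkcStmt := by
  intro M _ U ψ G hG
  refine ⟨?_, ?_, ?_, ?_, ?_, ?_, ?_⟩
  · exact hG.isOpen.preimage (eqE 4).symm.continuous
  · intro i j
    have h1 : ContDiffOn ℝ ∞ (fun q => G q (eb i) (eb j)) U :=
      (hG.smooth.clm_apply contDiffOn_const).clm_apply contDiffOn_const
    exact h1.comp (eqE 4).symm.contDiff.contDiffOn fun y hy => hy
  · intro y hy i j
    exact hG.symm _ hy _ _
  · intro y hy v hv
    rw [mkC_quad']
    refine hG.pos _ hy _ ?_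
    intro h0
    apply hv
    have := congrArg (eqE 4) h0
    simpa using this
  · intro q hq V
    rw [ric_sum hG hq V]
    refine Finset.sum_congr rfl fun i _ => Finset.sum_congr rfl fun j _ => ?_
    have h1 : ricci (mkC U ψ G).g i j (eqE 4 q) = ric G q (eb i) (eb j) := ricci_mat hG hq i j
    rw [h1]
  · intro h
    have h1 : Topology.IsOpenEmbedding (U.restrictPreimage (eqE 4).symm) :=
      (eqE 4).symm.toHomeomorph.isOpenEmbedding.restrictPreimage U
    exact h.comp h1
  · rintro U' ψ' G' hG' hψ hψ' ⟨f, hf, hf'⟩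
    have himg : (mkC U' ψ' G').ψ '' (mkC U' ψ' G').U = ψ' '' U' := by
      ext x
      constructor
      · rintro ⟨y, hy, rfl⟩
        exact ⟨(eqE 4).symm y, hy, rfl⟩
      · rintro ⟨q, hq, rfl⟩
        refine ⟨eqE 4 q, ?_, ?_⟩
        · show (eqE 4).symm (eqE 4 q) ∈ U'
          rwa [ContinuousLinearEquiv.symm_apply_apply]
        · show ψ' ((eqE 4).symm (eqE 4 q)) = ψ' q
          rw [ContinuousLinearEquiv.symm_apply_apply]
    refine ⟨fun z => eqE 4 (f ((eqE 4).symm z)), ?_, ?_⟩
    · have h1 : ContDiffOn ℝ ∞ (fun z => f ((eqE 4).symm z))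
          ((mkC U ψ G).U ∩ (mkC U ψ G).ψ ⁻¹' ((mkC U' ψ' G').ψ '' (mkC U' ψ' G').U)) := by
        refine hf.comp (eqE 4).symm.contDiff.contDiffOn ?_
        intro y hy
        rw [himg] at hy
        exact hy
      exact (eqE 4).contDiff.comp_contDiffOn h1
    · intro y hy
      rw [himg] at hy
      obtain ⟨h1, h2, h3⟩ := hf' ((eqE 4).symm y) hy
      refine ⟨?_, ?_, ?_⟩
      · show (eqE 4).symm (eqE 4 (f ((eqE 4).symm y))) ∈ U'
        rwa [ContinuousLinearEquiv.symm_apply_apply]
      · show ψ' ((eqE 4).symm (eqE 4 (f ((eqE 4).symm y)))) = ψ ((eqE 4).symm y)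
        rw [ContinuousLinearEquiv.symm_apply_apply]
        exact h2
      · intro i j
        simp only [fderiv_conj]
        have h4 : (mkC U ψ G).g y i j = G ((eqE 4).symm y) (eb i) (eb j) := rfl
        have h5 : ∀ k l, (mkC U' ψ' G').g (eqE 4 (f ((eqE 4).symm y))) k l =
            G' (f ((eqE 4).symm y)) (eb k) (eb l) := by
          intro k l
          show G' ((eqE 4).symm (eqE 4 (f ((eqE 4).symm y)))) (eb k) (eb l) = _
          rw [ContinuousLinearEquiv.symm_apply_apply]
        simp only [h5]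
        rw [h4, h3]
        set a := fderiv ℝ f ((eqE 4).symm y) (eb i) with ha
        set b := fderiv ℝ f ((eqE 4).symm y) (eb j) with hb
        set B := G' (f ((eqE 4).symm y)) with hB
        conv_lhs => rw [H9.sum_eb a, map_sum, _root_.sum_apply]
        refine Finset.sum_congr rfl fun k _ => ?_
        rw [map_smul, _root_.smul_apply, smul_eq_mul]
        conv_lhs => rw [H9.sum_eb b, map_sum]
        rw [Finset.mul_sum]
        refine Finset.sum_congr rfl fun l _ => ?_
        rw [map_smul, smul_eq_mul]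
        ring

end Pool.Agent.RLim.H75
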